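import Mathlib

open Cardinal Set

namespace Pool.Agent.Results.MP_28b4a6_lc.NoMaximal

/-- Martin's axiom for `κ` dense sets, restricted to countable partial orders. -/
def MACountable (κ : Cardinal.{0}) : Prop :=
  ∀ (P : Type) [PartialOrder P] [Nonempty P] [Countable P] (ι : Type) (D : ι → Set P), #ι ≤ κ →
    (∀ i, ∀ p : P, ∃ q ∈ D i, q ≤ p) →
    ∃ G : Set P, G.Nonempty ∧ (∀ a ∈ G, ∀ b : P, a ≤ b → b ∈ G) ∧
      (∀ a ∈ G, ∀ b ∈ G, ∃ c ∈ G, c ≤ a ∧ c ≤ b) ∧ ∀ i, (D i ∩ G).Nonempty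

/-- No three distinct points form a monochromatic triangle. -/
def TriangleFree {X : Type} (c : X → X → ℕ) : Prop :=
  ∀ x y z, x ≠ y → y ≠ z → x ≠ z → ¬ (c x y = c y z ∧ c y z = c x z)

/-- `c` is triangle-free, and no extension of `c` to one new point `none` is triangle-free. -/
def MaximalTriangleFree {X : Type} (c : X → X → ℕ) : Prop :=
  TriangleFree c ∧ ∀ d : Option X → Option X → ℕ, (∀ x y, d x y = d y x) →
    (∀ x y, x ≠ y → d (some x) (some y) = c x y) → ¬ TriangleFree d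

section
variable {X : Type} [Nonempty X] (c : X → X → ℕ)

/-- The tree of common neighbourhoods. -/
noncomputable def S : List ℕ → Set X
  | [] => univ
  | n :: l => {y ∈ S l | y ≠ Classical.epsilon (· ∈ S l) ∧ c (Classical.epsilon (· ∈ S l)) y = n}

/-- The chosen point at a node of the tree. -/
noncomputable def V (l : List ℕ) : X := Classical.epsilon (· ∈ S c l)

/-- The branch followed by `β`. -/
noncomputable def br (β : X) : ℕ → List ℕ
  | 0 => []
  | k + 1 => c (V c (br β k)) β :: br β k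

theorem inf_col (ht : TriangleFree c) (β : X) (hβ : β ∉ range (V c)) :
    {n | ∃ l, V c l ≠ β ∧ c (V c l) β = n}.Infinite := by
  have h0 : ∀ l, V c l ≠ β := fun l h => hβ ⟨l, h⟩
  have h1 : ∀ k, β ∈ S c (br c β k) := fun k => by
    induction k with
    | zero => trivial
    | succ k ih => exact ⟨ih, (h0 _).symm, rfl⟩
  have h2 : ∀ k, V c (br c β k) ∈ S c (br c β k) := fun k => Classical.epsilon_spec ⟨β, h1 k⟩
  have h3 : ∀ j k, j ≤ k → S c (br c β k) ⊆ S c (br c β j) := fun j k h => by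
    induction h with
    | refl => exact subset_rfl
    | step _ ih => exact fun y hy => ih hy.1
  have h4 : ∀ j k, j < k → c (V c (br c β j)) β ≠ c (V c (br c β k)) β := fun j k h e => by
    have := h3 (j + 1) k h (h2 k)
    exact ht (V c (br c β j)) (V c (br c β k)) β this.2.1.symm (h0 _) (h0 _)
      ⟨this.2.2.trans e, e.symm⟩
  refine infinite_of_injective_forall_mem (f := fun k => c (V c (br c β k)) β) (fun j k e => ?_)
    fun k => ⟨_, h0 _, rfl⟩
  rcases lt_trichotomy j k with h | h | h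
  · exact absurd e (h4 j k h)
  · exact h
  · exact absurd e.symm (h4 k j h)

theorem exists_f {κ : Cardinal.{0}} (hMA : MACountable κ) (hX : #X ≤ κ)
    (hs : ∀ x y, c x y = c y x) (ht : TriangleFree c) :
    ∃ f : X → ℕ, ∀ x z, x ≠ z → ¬ (f x = c x z ∧ f z = c x z) := by
  classical
  by_cases h : ∃ β, {n | ∃ v, v ≠ β ∧ c v β = n}.Finite
  · obtain ⟨β, hβ⟩ := h
    obtain ⟨m, hm⟩ := hβ.exists_notMem
    refine ⟨fun x => if x = β then m else c x β, fun x z hxz ⟨h1, h2⟩ => ?_⟩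
    beta_reduce at h1 h2
    by_cases hx : x = β
    · subst hx
      rw [if_pos rfl] at h1
      exact hm ⟨z, hxz.symm, by rw [h1, hs]⟩
    by_cases hz : z = β
    · subst hz
      rw [if_pos rfl] at h2
      exact hm ⟨x, hxz, h2.symm⟩
    rw [if_neg hx] at h1
    rw [if_neg hz] at h2
    exact ht x z β hxz hz hx ⟨h2.symm, h2.trans h1.symm⟩
  push Not at h
  let I := List ℕ ⊕ List ℕ × ℕ
  let u : I → X := Sum.elim (V c) fun p =>
    Classical.epsilon fun v => v ≠ V c p.1 ∧ c v (V c p.1) = p.2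
  have hu : ∀ β, {n | ∃ i, u i ≠ β ∧ c (u i) β = n}.Infinite := fun β => by
    by_cases hβ : β ∈ range (V c)
    · obtain ⟨l, rfl⟩ := hβ
      refine Set.Infinite.mono (fun n hn => ?_) (h (V c l))
      have := Classical.epsilon_spec hn
      exact ⟨Sum.inr (l, n), this⟩
    · refine (inf_col c ht β hβ).mono ?_
      rintro n ⟨l, hl⟩
      exact ⟨Sum.inl l, hl⟩
  let P := {s : Finset (ℕ × I) // ∀ a ∈ s, ∀ b ∈ s, a.1 = b.1 → a = b}ᵒᵈ
  haveI : Nonempty P := ⟨⟨∅, by simp⟩⟩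
  haveI : Countable P := inferInstanceAs (Countable (Subtype _))
  obtain ⟨G, -, -, g1, g2⟩ := hMA P X
    (fun β => {p | ∃ a ∈ p.1, u a.2 ≠ β ∧ c (u a.2) β = a.1}) hX fun β p => by
      obtain ⟨n, ⟨i, h1, h2⟩, h3⟩ := (hu β).exists_notMem_finset (p.1.image Prod.fst)
      refine ⟨⟨insert (n, i) p.1, fun a ha b hb hab => ?_⟩,
        ⟨(n, i), Finset.mem_insert_self _ _, h1, h2⟩, Finset.subset_insert _ _⟩
      rcases Finset.mem_insert.1 ha with rfl | ha' <;> rcases Finset.mem_insert.1 hb with rfl | hb'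
      · rfl
      · exact absurd (Finset.mem_image.2 ⟨b, hb', hab.symm⟩) h3
      · exact absurd (Finset.mem_image.2 ⟨a, ha', hab⟩) h3
      · exact p.2 a ha' b hb' hab
  choose p hp1 hp2 using g2
  choose a a1 a2 a3 using hp1
  refine ⟨fun x => (a x).1, fun x z hxz ⟨h1, h2⟩ => ?_⟩
  obtain ⟨r, -, r1, r2⟩ := g1 _ (hp2 x) _ (hp2 z)
  have e : a x = a z := r.2 _ (r1 (a1 x)) _ (r2 (a1 z)) (h1.trans h2.symm)
  exact ht (u (a x).2) x z (a2 x) hxz (e ▸ a2 z)
    ⟨(a3 x).trans h1, h2.symm.trans (by rw [e, a3 z])⟩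

end

end Pool.Agent.Results.MP_28b4a6_lc.NoMaximal

open Pool.Agent.Results.MP_28b4a6_lc.NoMaximal in
theorem Pool.Agent.Results.MP_28b4a6_lc.NoMaximal.result (κ : Cardinal.{0})
    (hMA : MACountable κ) (X : Type) (hX : #X ≤ κ) (c : X → X → ℕ)
    (hs : ∀ x y, c x y = c y x) : ¬ MaximalTriangleFree c := by
  rintro ⟨ht, hm⟩
  have : ∃ f : X → ℕ, ∀ x z, x ≠ z → ¬ (f x = c x z ∧ f z = c x z) := by
    rcases isEmpty_or_nonempty X with h | h
    · exact ⟨fun _ => 0, fun x => h.elim x⟩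
    · exact exists_f c hMA hX hs ht
  obtain ⟨f, hf⟩ := this
  refine hm (fun a b => a.elim (b.elim 0 f) fun x => b.elim (f x) (c x)) ?_ (fun _ _ _ => rfl) ?_
  · rintro (_ | x) (_ | y)
    · rfl
    · rfl
    · rfl
    · exact hs x y
  · rintro (_ | x) (_ | y) (_ | z) h1 h2 h3 ⟨h4, h5⟩
    · exact h1 rfl
    · exact h1 rfl
    · exact h3 rfl
    · exact hf y z (fun e => h2 (e ▸ rfl)) ⟨h4, h5.symm⟩
    · exact h2 rfl
    · exact hf x z (fun e => h3 (e ▸ rfl)) ⟨h4.trans h5, h5⟩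
    · exact hf x y (fun e => h1 (e ▸ rfl)) ⟨(h4.trans h5).symm, h4.symm⟩
    · exact ht x y z (fun e => h1 (e ▸ rfl)) (fun e => h2 (e ▸ rfl)) (fun e => h3 (e ▸ rfl))
        ⟨h4, h5⟩
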